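import Pool.Agent.H664.QK.Stm

/-!
QK LAST: the free case by exponential-algebraic closedness.
-/

set_option autoImplicit false

namespace Pool.Agent.H218.QK

open MvPolynomial Cardinal Pool.Agent.H664.QK

/-! ### `Tr` and the rank of the matroid -/

theorem tr_mono {k Ω ι : Type} [Field k] [Field Ω] [Algebra k Ω] {w : ι → Ω} {n m : ℕ}
    (h : Tr k w n) (hm : m ≤ n) : Tr k w m := by
  obtain ⟨J, hJ, hJ2⟩ := h
  obtain ⟨J', hJ', hc⟩ := Finset.exists_subset_card_eq (s := J) (n := m) (by omega)
  refine ⟨J', hc, ?_⟩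
  have h1 : AlgebraicIndependent k ((fun j : J => w j) ∘ (fun x : J' => (⟨x.1, hJ' x.2⟩ : J))) := by
    refine AlgebraicIndependent.comp hJ2 _ ?_
    intro a b hab
    exact Subtype.ext (congrArg (fun z : J => (z : ι)) hab)
  exact h1

theorem tr_le_card {k Ω ι : Type} [Field k] [Field Ω] [Algebra k Ω] [Fintype ι] {w : ι → Ω}
    {n : ℕ} (h : Tr k w n) : n ≤ Fintype.card ι := by
  obtain ⟨J, hJ, -⟩ := h
  rw [← hJ]
  exact Finset.card_le_univ J

theorem tr_zero {k Ω ι : Type} [Field k] [Field Ω] [Algebra k Ω] (w : ι → Ω) : Tr k w 0 := by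
  refine ⟨∅, rfl, ?_⟩
  have : IsEmpty (∅ : Finset ι) := ⟨fun x => absurd x.2 (Finset.notMem_empty _)⟩
  exact algebraicIndependent_empty_type

theorem tr_iff {k Ω ι : Type} [Field k] [Field Ω] [Algebra k Ω] (w : ι → Ω) (n : ℕ) :
    Tr k w n ↔ (n : ℕ∞) ≤ (AlgebraicIndependent.matroid k Ω).eRk (Set.range w) := by
  classical
  rw [Matroid.le_eRk_iff]
  constructor
  · rintro ⟨J, hJ, hJ2⟩
    refine ⟨Set.range (fun j : J => w j), ?_, ?_, ?_⟩
    · rintro _ ⟨j, rfl⟩
      exact ⟨j, rfl⟩
    · rw [AlgebraicIndependent.matroid_indep_iff]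
      exact hJ2.to_subtype_range
    · have hinj : Function.Injective (fun j : J => w j) := hJ2.injective
      rw [← Set.image_univ, hinj.encard_image, Set.encard_univ]
      simp [hJ]
  · rintro ⟨I, hI, hI2, hI3⟩
    rw [AlgebraicIndependent.matroid_indep_iff] at hI2
    choose f hf using fun x : I => hI x.2
    have hfin : I.Finite := Set.finite_of_encard_eq_coe hI3
    have : Fintype I := hfin.fintype
    have hfi : Function.Injective f := by
      intro a b hab
      apply Subtype.ext
      rw [← hf a, ← hf b, hab]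
    refine ⟨Finset.univ.image f, ?_, ?_⟩
    · rw [Finset.card_image_of_injective _ hfi, Finset.card_univ]
      have h1 : I.encard = (Fintype.card I : ℕ∞) := by
        rw [Set.encard, ENat.card_eq_coe_fintype_card]
      rw [h1] at hI3
      exact_mod_cast hI3
    · have h2 : ∀ j : (Finset.univ.image f : Finset ι), w j ∈ I := by
        rintro ⟨j, hj⟩
        obtain ⟨x, -, rfl⟩ := Finset.mem_image.1 hj
        show w (f x) ∈ I
        rw [hf x]
        exact x.2
      have h3 : AlgebraicIndependent k ((fun x : I => (x : Ω)) ∘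
          (fun j : (Finset.univ.image f : Finset ι) => (⟨w j, h2 j⟩ : I))) := by
        refine AlgebraicIndependent.comp hI2 _ ?_
        rintro ⟨a, ha⟩ ⟨b, hb⟩ hab
        obtain ⟨x, -, rfl⟩ := Finset.mem_image.1 ha
        obtain ⟨y, -, rfl⟩ := Finset.mem_image.1 hb
        have h4 : w (f x) = w (f y) := congrArg Subtype.val hab
        rw [hf x, hf y] at h4
        have h5 : x = y := Subtype.ext h4
        subst h5
        rfl
      exact h3

/-! ### the field `acl K S` -/

theorem mem_acl (K : Subfield ℂ) (S : Set ℂ) (z : ℂ) :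
    z ∈ acl K S ↔ IsAlgebraic (IntermediateField.adjoin K S) z := by
  unfold acl
  rw [IntermediateField.mem_toSubfield, mem_algebraicClosure_iff]

theorem le_acl (K : Subfield ℂ) (S : Set ℂ) (z : ℂ) (h : z ∈ K) : z ∈ acl K S := by
  rw [mem_acl]
  exact isAlgebraic_algebraMap (⟨z, (IntermediateField.adjoin K S).algebraMap_mem ⟨z, h⟩⟩ :
    IntermediateField.adjoin K S)

theorem sub_acl (K : Subfield ℂ) (S : Set ℂ) (z : ℂ) (h : z ∈ S) : z ∈ acl K S := by
  rw [mem_acl]
  exact isAlgebraic_algebraMap (⟨z, IntermediateField.subset_adjoin K S h⟩ :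
    IntermediateField.adjoin K S)

theorem acl_alg (K : Subfield ℂ) (S : Set ℂ) (z : ℂ) (h : IsAlgebraic (acl K S) z) :
    z ∈ acl K S := by
  rw [mem_acl]
  have h' : IsAlgebraic (algebraicClosure (IntermediateField.adjoin K S) ℂ) z := h
  exact h'.restrictScalars (IntermediateField.adjoin K S)

theorem acl_countable (K : Subfield ℂ) (hK : (K : Set ℂ).Countable) (S : Set ℂ)
    (hS : S.Countable) : (acl K S : Set ℂ).Countable := by
  have h1 : #(IntermediateField.adjoin K S) ≤ ℵ₀ := by
    refine (IntermediateField.cardinalMk_adjoin_le K S).trans ?_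
    refine max_le (max_le ?_ ?_) le_rfl
    · exact Cardinal.mk_le_aleph0_iff.2 hK.to_subtype
    · exact Cardinal.mk_le_aleph0_iff.2 hS.to_subtype
  have h2 : #(algebraicClosure (IntermediateField.adjoin K S) ℂ) ≤ ℵ₀ := by
    refine (Algebra.IsAlgebraic.cardinalMk_le_max (IntermediateField.adjoin K S) _).trans ?_
    exact max_le h1 le_rfl
  have h3 : Countable (algebraicClosure (IntermediateField.adjoin K S) ℂ) :=
    Cardinal.mk_le_aleph0_iff.1 h2
  exact Set.countable_coe_iff.1 h3

/-- the main lemma on transcendence degrees -/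
theorem tr_acl (K : Subfield ℂ) (S : Set ℂ) {ι : Type} (w : ι → ℂ) (a e : ℕ)
    (h1 : (AlgebraicIndependent.matroid K ℂ).eRk S ≤ a)
    (h2 : ((a + e : ℕ) : ℕ∞) ≤ (AlgebraicIndependent.matroid K ℂ).eRk (S ∪ Set.range w)) :
    Tr (acl K S) w e := by
  classical
  set Mt := AlgebraicIndependent.matroid K ℂ with hMt
  obtain ⟨I1, hI1⟩ := Mt.exists_isBasis S
  obtain ⟨I2, hI2, h12⟩ := hI1.indep.subset_isBasis_of_subset
    (hI1.subset.trans (Set.subset_union_left (t := Set.range w)))
  have c1 : I1.encard ≤ a := by rw [hI1.encard_eq_eRk]; exact h1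
  have c2 : ((a + e : ℕ) : ℕ∞) ≤ I2.encard := by rw [hI2.encard_eq_eRk]; exact h2
  have c3 : (e : ℕ∞) ≤ (I2 \ I1).encard := by
    have h3 := Set.encard_sdiff_add_encard_of_subset h12
    rw [← h3] at c2
    have h4 : ((a + e : ℕ) : ℕ∞) ≤ (I2 \ I1).encard + a := c2.trans (by gcongr)
    push_cast at h4
    rw [add_comm] at h4
    exact (WithTop.add_le_add_iff_right (WithTop.coe_ne_top (a := a))).1 h4
  have hsub : I2 \ I1 ⊆ Set.range w := by
    rintro z ⟨hz2, hz1⟩
    rcases hI2.subset hz2 with h | h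
    · exfalso
      apply hz1
      have h5 : Mt.Indep (insert z I1) := hI2.indep.subset (Set.insert_subset hz2 h12)
      exact hI1.mem_of_insert_indep h h5
    · exact h
  rw [tr_iff]
  refine le_trans c3 ?_
  have hind : (AlgebraicIndependent.matroid (acl K S) ℂ).Indep (I2 \ I1) := by
    rw [AlgebraicIndependent.matroid_indep_iff]
    have h6 := hI2.indep
    rw [hMt, AlgebraicIndependent.matroid_indep_iff] at h6
    have h7 : AlgebraicIndependent K (fun x : I2 => (x : ℂ)) := h6
    have h8 := h7.adjoin_of_disjoint (s := {x : I2 | (x : ℂ) ∈ I1})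
      (t := {x : I2 | (x : ℂ) ∉ I1}) (by
        rw [Set.disjoint_left]
        intro x hx hx'
        exact hx' hx)
    have h9 : (fun x : I2 => (x : ℂ)) '' {x : I2 | (x : ℂ) ∈ I1} = I1 := by
      ext z
      constructor
      · rintro ⟨x, hx, rfl⟩
        exact hx
      · intro hz
        exact ⟨⟨z, h12 hz⟩, hz, rfl⟩
    rw [h9] at h8
    have h10 : AlgebraicIndependent (Algebra.adjoin K I1) (fun x : (I2 \ I1 : Set ℂ) => (x : ℂ)) :=
      h8.comp (fun x : (I2 \ I1 : Set ℂ) => (⟨⟨x.1, x.2.1⟩, x.2.2⟩ :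
        {x : I2 | (x : ℂ) ∉ I1})) (by
          intro x y hxy
          simpa [Subtype.ext_iff] using hxy)
    -- extension of scalars
    have hle : ∀ z : Algebra.adjoin K I1, (z : ℂ) ∈ acl K S := by
      rintro ⟨z, hz⟩
      have : Algebra.adjoin K I1 ≤ (IntermediateField.adjoin K S).toSubalgebra := by
        apply Algebra.adjoin_le
        intro y hy
        exact IntermediateField.subset_adjoin K S (hI1.subset hy)
      rw [mem_acl]
      exact isAlgebraic_algebraMap (⟨z, this hz⟩ : IntermediateField.adjoin K S)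
    let f : Algebra.adjoin K I1 →+* acl K S :=
      { toFun := fun z => ⟨z, hle z⟩
        map_one' := rfl
        map_mul' := fun _ _ => rfl
        map_zero' := rfl
        map_add' := fun _ _ => rfl }
    let _ : Algebra (Algebra.adjoin K I1) (acl K S) := f.toAlgebra
    have : IsScalarTower (Algebra.adjoin K I1) (acl K S) ℂ :=
      IsScalarTower.of_algebraMap_eq fun z => rfl
    have : Algebra.IsAlgebraic (Algebra.adjoin K I1) (acl K S) := by
      refine ⟨fun z => ?_⟩
      have h11 : IsAlgebraic (Algebra.adjoin K I1) (z : ℂ) := by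
        rw [AlgebraicIndependent.isAlgebraic_adjoin_iff_of_matroid_isBasis hI1,
          ← IntermediateField.isAlgebraic_adjoin_iff]
        exact (mem_acl K S z).1 z.2
      exact (isAlgebraic_algHom_iff (IsScalarTower.toAlgHom (Algebra.adjoin K I1) (acl K S) ℂ)
        Subtype.val_injective).1 h11
    exact h10.extendScalars (acl K S)
  exact hind.encard_le_eRk_of_subset hsub

/-! ### rotundity -/

/-- the action on an exponential point -/
theorem actF_ex {p : ℕ} (M : Matrix (Fin p) (Fin p) ℤ) (w : Fin p → ℂ) {Ω : Type} [Field Ω]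
    (j : ℂ →+* Ω) : actF M (Sum.elim (fun l => j (w l)) (fun l => j (Complex.exp (w l)))) =
      fun l => j (ex (fun i => ∑ l, (M i l : ℂ) * w l) l) := by
  funext l
  rcases l with i | i
  · simp [actF, ex]
  · simp only [actF, ex, Sum.elim_inr, Complex.exp_sum, map_prod, Complex.exp_int_mul, map_zpow₀]

/-- there are `rank M` independent rows -/
theorem rows {p : ℕ} (M : Matrix (Fin p) (Fin p) ℤ) :
    ∃ a : Fin (M.map (Int.cast : ℤ → ℚ)).rank → Fin p,
      ∀ c : Fin (M.map (Int.cast : ℤ → ℚ)).rank → ℤ, (∀ l, ∑ i, c i * M (a i) l = 0) → c = 0 := by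
  classical
  obtain ⟨κ, a, ha, hsp, hli⟩ := exists_linearIndependent' ℚ (M.map (Int.cast : ℤ → ℚ)).row
  have : Finite κ := Finite.of_injective a ha
  have : Fintype κ := Fintype.ofFinite κ
  have hc : Fintype.card κ = (M.map (Int.cast : ℤ → ℚ)).rank := by
    rw [Matrix.rank_eq_finrank_span_row, ← hsp, finrank_span_eq_card hli]
  let E : Fin (M.map (Int.cast : ℤ → ℚ)).rank ≃ κ := (Fintype.equivFinOfCardEq hc).symm
  refine ⟨fun i => a (E i), ?_⟩
  intro c hc0
  have h1 : LinearIndependent ℚ (((M.map (Int.cast : ℤ → ℚ)).row ∘ a) ∘ E) :=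
    hli.comp E E.injective
  rw [Fintype.linearIndependent_iff] at h1
  have h2 := h1 (fun i => (c i : ℚ)) (by
    funext l
    have h3 := hc0 l
    have h4 : ((∑ i, c i * M (a (E i)) l : ℤ) : ℚ) = 0 := by rw [h3]; simp
    push_cast at h4
    rw [Finset.sum_apply]
    refine Eq.trans ?_ h4
    apply Finset.sum_congr rfl
    intro i _
    rfl)
  funext i
  have := h2 i
  simpa using this

theorem rot_lemma {K : Subfield ℂ} (hK : Str K) {q p : ℕ} (t : Fin q → ℂ) (hq : 0 < q)
    (htight : ¬ Tr K (ex t) (q + 2)) (w : Fin p → ℂ) (hw : Ind K (Fin.append t w))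
    (M : Matrix (Fin p) (Fin p) ℤ) :
    Tr (acl K (Set.range (ex t))) (ex (fun i => ∑ l, (M i l : ℂ) * w l))
      (M.map (Int.cast : ℤ → ℚ)).rank := by
  set e := (M.map (Int.cast : ℤ → ℚ)).rank with he
  obtain ⟨a, ha⟩ : ∃ a : Fin e → Fin p, ∀ c : Fin e → ℤ,
    (∀ l, ∑ i, c i * M (a i) l = 0) → c = 0 := rows M
  set u : Fin p → ℂ := fun i => ∑ l, (M i l : ℂ) * w l with hu
  -- independence
  have hind : Ind K (Fin.append t (fun i : Fin e => u (a i))) := by
    intro m hm
    set m' : Fin (q + p) → ℤ := Fin.append (fun i => m (Fin.castAdd e i))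
      (fun l => ∑ i : Fin e, m (Fin.natAdd q i) * M (a i) l) with hm'
    have h1 : ∑ j, (m j : ℂ) * (Fin.append t (fun i : Fin e => u (a i)) : Fin (q + e) → ℂ) j =
        ∑ j, (m' j : ℂ) * (Fin.append t w : Fin (q + p) → ℂ) j := by
      rw [Fin.sum_univ_add, Fin.sum_univ_add]
      congr 1
      · apply Finset.sum_congr rfl
        intro i _
        rw [hm', Fin.append_left, Fin.append_left, Fin.append_left]
      · have h2 : ∀ l : Fin p, ((m' (Fin.natAdd q l) : ℤ) : ℂ) *
            (Fin.append t w : Fin (q + p) → ℂ) (Fin.natAdd q l) =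
            ∑ i : Fin e, (m (Fin.natAdd q i) : ℂ) * ((M (a i) l : ℂ) * w l) := by
          intro l
          rw [hm', Fin.append_right, Fin.append_right]
          push_cast
          rw [Finset.sum_mul]
          apply Finset.sum_congr rfl
          intro i _
          ring
        rw [Finset.sum_congr rfl (fun l _ => h2 l), Finset.sum_comm]
        apply Finset.sum_congr rfl
        intro i _
        rw [Fin.append_right, hu, Finset.mul_sum]
    rw [h1] at hm
    have h3 := hw m' hm
    have h4 : (fun i : Fin e => m (Fin.natAdd q i)) = 0 := by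
      apply ha
      intro l
      have h7 := congrFun h3 (Fin.natAdd q l)
      rw [hm', Fin.append_right] at h7
      exact h7
    funext j
    refine Fin.addCases (fun i => ?_) (fun i => ?_) j
    · have := congrFun h3 (Fin.castAdd p i)
      rw [hm', Fin.append_left] at this
      exact this
    · exact congrFun h4 i
  have htr := hK.tr (q + e) _ (by omega) hind
  rw [tr_iff] at htr
  refine tr_acl K (Set.range (ex t)) (ex u) (q + 1) e ?_ ?_
  · rw [tr_iff, not_le] at htight
    have h5 : (((q + 2 : ℕ)) : ℕ∞) = ((q + 1 : ℕ) : ℕ∞) + 1 := by push_cast; ring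
    rw [h5] at htight
    exact ENat.lt_add_one_iff (ENat.natCast_ne_top _) |>.1 htight
  · have h6 : q + 1 + e = q + e + 1 := by ring
    rw [h6]
    refine htr.trans (Matroid.eRk_mono _ ?_)
    rintro _ ⟨j, rfl⟩
    rcases j with j | j
    · refine Fin.addCases (fun i => ?_) (fun i => ?_) j
      · left
        exact ⟨Sum.inl i, by simp [ex]⟩
      · right
        exact ⟨Sum.inl (a i), by simp [ex]⟩
    · refine Fin.addCases (fun i => ?_) (fun i => ?_) j
      · left
        exact ⟨Sum.inr i, by simp [ex]⟩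
      · right
        exact ⟨Sum.inr (a i), by simp [ex]⟩

/-! ### the theorem -/

theorem last (h1 : S_big) (h2 : S_isox) : S_last := by
  intro p hp hF K hK q t t' hS w hw hm
  set F := acl K (Set.range (ex t)) with hFd
  have hFc : (F : Set ℂ).Countable := acl_countable K hK.cnt _ (Set.countable_range _)
  obtain ⟨k, Ω, ik, iΩ, ia, j, i, hk, hck, hcomp, htrans, hfree⟩ :=
    h1 F hFc (fun z hz => acl_alg K _ z hz)
  obtain ⟨σ, σ1, σ2, σ3⟩ := hS.iso
  have hcF : Countable F := hFc.to_subtype
  obtain ⟨φ, hφ⟩ := h2 F k i ((acl K (Set.range (ex t'))).subtype.comp (σ : F →+* _)) hck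
  set x : Fin p → Ω := fun l => j (w l) with hx
  set y : Fin p → Ω := fun l => j (Complex.exp (w l)) with hy
  have hjinj : Function.Injective j := j.injective
  have hrot : ∀ M : Matrix (Fin p) (Fin p) ℤ,
      Tr k (actF M (Sum.elim x y)) (M.map (Int.cast : ℤ → ℚ)).rank := by
    intro M
    obtain ⟨J, hJ, hJ2⟩ := rot_lemma hK t hS.pos hS.tight w hw M
    refine ⟨J, hJ, ?_⟩
    rw [hx, hy, actF_ex M w j]
    exact htrans _ _ hJ2
  have hfr : FRt k x y := by
    refine ⟨?_, ?_, ?_, hrot⟩
    · intro l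
      rw [hy]
      exact (map_ne_zero j).2 (Complex.exp_ne_zero _)
    · intro m hm0 c hc
      refine (hm m hm0).1 (hfree _ ⟨c, ?_⟩)
      rw [← hc, hx]
      simp [map_sum]
    · intro m hm0 c hc
      refine (hm m hm0).2 (hfree _ ⟨c, ?_⟩)
      rw [← hc, hy]
      simp only [Complex.exp_sum, map_prod, Complex.exp_int_mul, map_zpow₀]
  -- the transcendence degree
  classical
  have hbound : ∃ n, ¬ Tr k (Sum.elim x y) (n + 1) := by
    refine ⟨Fintype.card (Fin p ⊕ Fin p), fun h => ?_⟩
    have := tr_le_card h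
    omega
  set d := Nat.find hbound with hd
  have hd1 : ¬ Tr k (Sum.elim x y) (d + 1) := Nat.find_spec hbound
  have hd2 : Tr k (Sum.elim x y) d := by
    rcases Nat.eq_zero_or_pos d with h | h
    · rw [h]
      exact tr_zero _
    · have h3 := Nat.find_min hbound (m := d - 1) (by omega)
      rw [not_not] at h3
      have h4 : d - 1 + 1 = d := by omega
      rwa [h4] at h3
  have hpd : p ≤ d := by
    have h3 := hrot 1
    have h4 : actF (1 : Matrix (Fin p) (Fin p) ℤ) (Sum.elim x y) = Sum.elim x y := by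
      funext l
      rcases l with l | l
      · simp [actF, Matrix.one_apply]
      · simp only [actF, Sum.elim_inr, Matrix.one_apply]
        rw [Finset.prod_eq_single l]
        · simp
        · intro b _ hb
          rw [if_neg (Ne.symm hb), zpow_zero]
        · intro hb
          exact absurd (Finset.mem_univ l) hb
    have h5 : ((1 : Matrix (Fin p) (Fin p) ℤ).map (Int.cast : ℤ → ℚ)).rank = p := by
      have h6 : (1 : Matrix (Fin p) (Fin p) ℤ).map (Int.cast : ℤ → ℚ) = 1 := by
        ext a b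
        simp [Matrix.one_apply]
      rw [h6, Matrix.rank_one, Fintype.card_fin]
    rw [h4, h5] at h3
    by_contra hc
    exact hd1 (tr_mono h3 (by omega))
  obtain ⟨z, hz⟩ := hF d hpd k Ω φ x y hfr hd2 hd1
  refine ⟨z, ?_⟩
  intro g hg
  -- substitution
  have hexF : ∀ a, ex t a ∈ F := fun a => sub_acl K _ _ ⟨a, rfl⟩
  let ι₀ : K →+* F :=
    { toFun := fun c => ⟨c, le_acl K _ c c.2⟩
      map_one' := rfl
      map_mul' := fun _ _ => rfl
      map_zero' := rfl
      map_add' := fun _ _ => rfl }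
  let s₁ : MvPolynomial ((Fin q ⊕ Fin q) ⊕ (Fin p ⊕ Fin p)) K →+* MvPolynomial (Fin p ⊕ Fin p) k :=
    eval₂Hom ((C : k →+* _).comp (i.comp ι₀))
      (Sum.elim (fun a => C (i ⟨ex t a, hexF a⟩)) (fun b => X b))
  have e1 : ((aeval (Sum.elim x y) : MvPolynomial (Fin p ⊕ Fin p) k →ₐ[k] Ω) :
      MvPolynomial (Fin p ⊕ Fin p) k →+* Ω).comp s₁ =
      j.comp ((aeval (Sum.elim (ex t) (ex w)) :
        MvPolynomial ((Fin q ⊕ Fin q) ⊕ (Fin p ⊕ Fin p)) K →ₐ[K] ℂ) :
          MvPolynomial ((Fin q ⊕ Fin q) ⊕ (Fin p ⊕ Fin p)) K →+* ℂ) := by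
    apply MvPolynomial.ringHom_ext
    · intro c
      simp only [s₁, RingHom.comp_apply, coe_eval₂Hom, eval₂_C, RingHom.coe_coe, aeval_C]
      exact hcomp (ι₀ c)
    · intro a
      rcases a with a | a
      · simp only [s₁, RingHom.comp_apply, coe_eval₂Hom, eval₂_X, Sum.elim_inl, RingHom.coe_coe,
          aeval_C, aeval_X]
        exact hcomp _
      · simp only [s₁, RingHom.comp_apply, coe_eval₂Hom, eval₂_X, Sum.elim_inr, RingHom.coe_coe,
          aeval_X]
        rcases a with a | a
        · rfl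
        · rfl
  have e2 : ((eval (ex z)).comp (map (φ : k →+* ℂ))).comp s₁ =
      ((aeval (Sum.elim (ex t') (ex z)) :
        MvPolynomial ((Fin q ⊕ Fin q) ⊕ (Fin p ⊕ Fin p)) K →ₐ[K] ℂ) :
          MvPolynomial ((Fin q ⊕ Fin q) ⊕ (Fin p ⊕ Fin p)) K →+* ℂ) := by
    apply MvPolynomial.ringHom_ext
    · intro c
      simp only [s₁, RingHom.comp_apply, coe_eval₂Hom, eval₂_C, RingHom.coe_coe, aeval_C, map_C,
        eval_C]
      rw [hφ]
      exact σ1 (ι₀ c) c.2
    · intro a
      rcases a with a | a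
      · simp only [s₁, RingHom.comp_apply, coe_eval₂Hom, eval₂_X, Sum.elim_inl, RingHom.coe_coe,
          aeval_X, map_C, eval_C]
        rw [hφ]
        rcases a with a | a
        · exact σ2 ⟨ex t (Sum.inl a), hexF _⟩ a rfl
        · exact σ3 ⟨ex t (Sum.inr a), hexF _⟩ a rfl
      · simp only [s₁, RingHom.comp_apply, coe_eval₂Hom, eval₂_X, Sum.elim_inr, RingHom.coe_coe,
          aeval_X, map_X, eval_X]
  have h3 := hz (s₁ g) (by
    have := congrArg (fun f => f g) e1
    simp only [RingHom.comp_apply, RingHom.coe_coe] at this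
    rw [this, hg, map_zero])
  have h4 := congrArg (fun f => f g) e2
  simp only [RingHom.comp_apply, RingHom.coe_coe] at h4
  rw [← h4]
  exact h3

end Pool.Agent.H218.QK
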